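import Pool.Graph.R_pool_sql_team_seeded_5cf16337.K3h52.LF.Num

set_option autoImplicit false
set_option linter.unusedSectionVars false

/-!
Two kinds of points of the net: those with a large Macbeath region are covered by random
translates, the other ones by heavy translates.
-/

namespace Pool.Agent.Helper66.DL

open scoped RealInnerProductSpace Pointwise
open Module MeasureTheory
open Pool.Agent.H845R2 (SB pol pol_anti pol_closed pol_convex)
open Pool.Agent.K3h52 Pool.Agent.K3h52.HR Pool.Agent.K3h52.LF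

variable {V : Type*} [NormedAddCommGroup V] [InnerProductSpace ℝ V] [FiniteDimensional ℝ V]
  [MeasurableSpace V] [BorelSpace V] (μ : Measure V) [μ.IsAddHaarMeasure]

/-- Random translates: every point of `F` satisfies a bound in terms of `r`, the linear size of
its Macbeath region, and the sum of these bounds is less than one. -/
theorem few_gen {K L : Set V} (hK : Bd K) (hL : Convex ℝ L) (hLc : IsCompact L)
    (hLi : (interior L).Nonempty) (hLK : L ⊆ K) (hd : 1 ≤ finrank ℝ V) {κ : ℝ} (hκ0 : 0 < κ)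
    (hκ1 : κ < 1)
    (F : Finset V) (hF : ∀ p ∈ F, p ∈ interior K) (m : ℕ) (ν : ℝ) (hν : 0 < ν)
    (hm : ν * (((1 + κ) / (1 - κ)) ^ finrank ℝ V * μ.real (K - L)) ≤ m * μ.real L)
    (b : V → ℝ)
    (hb : ∀ p ∈ F, Real.exp (-(ν * (1 + (μ.real (Mac K p) / μ.real K) ^ ((finrank ℝ V : ℝ)⁻¹)) ^
      finrank ℝ V)) ≤ b p)
    (hsum : ∑ p ∈ F, b p < 1) :
    ∃ Y : Finset V, Y.card ≤ m ∧ ∀ p ∈ F, ∃ t ∈ Y, p - t ∈ (1 - κ) • K := by
  classical
  obtain ⟨l₀, hl₀⟩ : L.Nonempty := hLi.mono interior_subset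
  set d := finrank ℝ V with hdd
  have hd0 : d ≠ 0 := by omega
  have hKc := hK.comp
  have hKr : 0 < μ.real K := TP.real_pos' μ hK.comp ⟨0, hK.i0⟩
  have hLr : 0 < μ.real L := TP.real_pos' μ hLc hLi
  have hLKr : μ.real L ≤ μ.real K := measureReal_mono hLK hKc.measure_lt_top.ne
  have hKL : 0 < μ.real (K - L) := by
    refine TP.real_pos' μ (sub_comp hKc hLc) ?_
    refine ⟨0 - l₀, ?_⟩
    have h1 : interior K - L ⊆ interior (K - L) :=
      interior_maximal (Set.sub_subset_sub_right interior_subset)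
        (isOpen_interior.sub_right)
    exact h1 (Set.sub_mem_sub hK.i0 hl₀)
  have hκ2 : 0 < 1 - κ := by linarith
  have hκ3 : 0 < 1 + κ := by linarith
  have hQv : μ.real (Qs K L κ l₀) = ((1 + κ) / 2) ^ d * μ.real (K - L) := qs_vol μ hκ0 l₀
  have hQ0 : 0 < μ.real (Qs K L κ l₀) := by rw [hQv]; positivity
  have hs0 : ∀ p ∈ F, 0 < μ.real (Mac K p) := fun p hp =>
    TP.real_pos' μ (mac_comp hK.comp p) (mac_sb hK.conv hK.comp (hF p hp)).int
  set r : V → ℝ := fun p => (μ.real (Mac K p) / μ.real L) ^ ((d : ℝ)⁻¹) with hr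
  have hr0 : ∀ p ∈ F, 0 < r p := fun p hp => Real.rpow_pos_of_pos (div_pos (hs0 p hp) hLr) _
  have hrd : ∀ p ∈ F, r p ^ d = μ.real (Mac K p) / μ.real L := fun p hp =>
    Real.rpow_inv_natCast_pow (div_pos (hs0 p hp) hLr).le hd0
  set c₀ := ((1 - κ) / (1 + κ)) ^ d * (μ.real L / μ.real (K - L)) with hc₀
  have hc₀0 : 0 < c₀ := by positivity
  set c : V → ℝ := fun p => c₀ * (1 + r p) ^ d with hc
  have hvol : ∀ p ∈ F, c p * μ.real (Qs K L κ l₀) ≤ μ.real (Ts K L κ l₀ p) := by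
    intro p hp
    refine le_trans (le_of_eq ?_) (ts_vol μ hK.conv hKc hL hLc hLK hκ0 hκ1 hl₀
      (interior_subset (hF p hp)) (r p) (hr0 p hp) ?_)
    · rw [hQv, hc, hc₀, ← hdd]
      simp only
      rw [mul_pow, div_pow, div_pow, div_pow]
      field_simp
    · rw [← hdd, hrd p hp]
      field_simp
  obtain ⟨Y, hY, hYs⟩ := select μ (Qs K L κ l₀) (qs_closed hKc hLc κ l₀).measurableSet hQ0
    (Ts K L κ l₀) c m F (fun p _ => (ts_closed hKc hLc κ l₀ p).measurableSet)
    (fun p _ => ts_sub κ l₀ p) hvol (fun _ => 1) (fun _ _ => zero_le_one)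
  refine ⟨Y, hY, ?_⟩
  have hc1 : ∀ p ∈ F, c p ≤ 1 := by
    intro p hp
    have h1 : μ.real (Ts K L κ l₀ p) ≤ μ.real (Qs K L κ l₀) :=
      measureReal_mono (ts_sub κ l₀ p) (qs_fin μ hKc hLc κ l₀)
    have h2 := (hvol p hp).trans h1
    by_contra hcon
    push Not at hcon
    nlinarith
  have hmν : ν ≤ m * c₀ := by
    rw [hc₀]
    have e : (m : ℝ) * (((1 - κ) / (1 + κ)) ^ d * (μ.real L / μ.real (K - L))) =
        (m * μ.real L) / (((1 + κ) / (1 - κ)) ^ d * μ.real (K - L)) := by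
      rw [div_pow, div_pow]
      field_simp
    rw [e, le_div_iff₀ (by positivity)]
    exact hm
  have hterm : ∀ p ∈ F, (1 : ℝ) * (1 - c p) ^ m ≤ b p := by
    intro p hp
    have hrp := hr0 p hp
    have h1 : (1 - c p) ^ m ≤ Real.exp (-(m * c p)) := by
      have h2 : 1 - c p ≤ Real.exp (-c p) := by
        have := Real.add_one_le_exp (-c p)
        linarith
      calc (1 - c p) ^ m ≤ Real.exp (-c p) ^ m :=
            pow_le_pow_left₀ (by linarith [hc1 p hp]) h2 _
        _ = Real.exp (-(m * c p)) := by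
            rw [← Real.exp_nat_mul]
            congr 1
            ring
    have ha0 : 0 ≤ μ.real (Mac K p) / μ.real K := by positivity
    have har : (μ.real (Mac K p) / μ.real K) ^ ((d : ℝ)⁻¹) ≤ r p := by
      refine Real.rpow_le_rpow ha0 ?_ (by positivity)
      exact div_le_div_of_nonneg_left (hs0 p hp).le hLr hLKr
    have ha1 : 0 ≤ (μ.real (Mac K p) / μ.real K) ^ ((d : ℝ)⁻¹) := by positivity
    have h2 : ν * (1 + (μ.real (Mac K p) / μ.real K) ^ ((d : ℝ)⁻¹)) ^ d ≤ m * c p := by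
      calc ν * (1 + (μ.real (Mac K p) / μ.real K) ^ ((d : ℝ)⁻¹)) ^ d
          ≤ (m * c₀) * (1 + r p) ^ d :=
            mul_le_mul hmν (pow_le_pow_left₀ (by linarith) (by linarith) d) (by positivity)
              (by positivity)
        _ = m * c p := by rw [hc]; ring
    calc (1 : ℝ) * (1 - c p) ^ m ≤ Real.exp (-(m * c p)) := by rw [one_mul]; exact h1
      _ ≤ Real.exp (-(ν * (1 + (μ.real (Mac K p) / μ.real K) ^ ((d : ℝ)⁻¹)) ^ d)) :=
          Real.exp_le_exp.2 (neg_le_neg h2)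
      _ ≤ b p := hb p hp
  have hlt : ∑ p ∈ F with (∀ t ∈ Y, t ∉ Ts K L κ l₀ p), (1 : ℝ) < 1 :=
    lt_of_le_of_lt hYs (lt_of_le_of_lt (Finset.sum_le_sum hterm) hsum)
  rw [Finset.sum_const, nsmul_eq_mul, mul_one] at hlt
  have hemp : (F.filter fun p => ∀ t ∈ Y, t ∉ Ts K L κ l₀ p) = ∅ := by
    rw [← Finset.card_eq_zero]
    have : (F.filter fun p => ∀ t ∈ Y, t ∉ Ts K L κ l₀ p).card < 1 := by exact_mod_cast hlt
    omega
  intro p hp
  by_contra hcon
  push Not at hcon
  have : p ∈ (F.filter fun p => ∀ t ∈ Y, t ∉ Ts K L κ l₀ p) :=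
    Finset.mem_filter.2 ⟨hp, fun t ht h => hcon t ht h.2⟩
  rw [hemp] at this
  simp at this

/-- **The points of the net are covered by few translates.** The number `s` separates the small
Macbeath regions from the large ones. -/
theorem few_split {K L : Set V} (hK : Bd K) (hL : Convex ℝ L) (hLc : IsCompact L)
    (hLi : (interior L).Nonempty) (hLK : L ⊆ K) (hd : 1 ≤ finrank ℝ V) {κ : ℝ} (hκ0 : 0 < κ)
    (hκ1 : κ < 1)
    (F : Finset V) (hF : ∀ p ∈ F, p ∈ interior K) (G : ℝ)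
    (hG : ∑ p ∈ F, μ.real K / μ.real (Mac K p) ≤ G) (m : ℕ) (ν : ℝ) (hν : 0 < ν)
    (hm : ν * (((1 + κ) / (1 - κ)) ^ finrank ℝ V * μ.real (K - L)) ≤ m * μ.real L)
    (G' : ℝ) (hGG : G < G') (s : ℝ) (hs : 0 < s)
    (hexp : ∀ x : ℝ, s ≤ x → x ≤ finrank ℝ V →
      Real.exp (-(ν * (2 : ℝ) ^ x)) ≤ (finrank ℝ V / x) ^ finrank ℝ V / G')
    (k n : ℕ) (hk : G * (s / finrank ℝ V) ^ finrank ℝ V < k + 1)
    (hn : (TP.left (((1 - κ) / (1 + (1 - κ))) ^ finrank ℝ V))^[n] k = 0) :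
    ∃ Y : Finset V, Y.card ≤ n + m ∧ ∀ p ∈ F, ∃ t ∈ Y, p - t ∈ (1 - κ) • K := by
  classical
  set d := finrank ℝ V with hdd
  have hd0 : d ≠ 0 := by omega
  have hdr : (0 : ℝ) < d := by exact_mod_cast (by omega : 0 < d)
  have hKc := hK.comp
  have hKr : 0 < μ.real K := TP.real_pos' μ hK.comp ⟨0, hK.i0⟩
  have hs0 : ∀ p ∈ F, 0 < μ.real (Mac K p) := fun p hp =>
    TP.real_pos' μ (mac_comp hK.comp p) (mac_sb hK.conv hK.comp (hF p hp)).int
  have hsK : ∀ p ∈ F, μ.real (Mac K p) ≤ μ.real K := by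
    intro p hp
    have h1 : μ.real (Mac K p) ≤ μ.real ((fun v => p + v) ⁻¹' K) := by
      refine measureReal_mono (fun v hv => hv.1) ?_
      rw [measure_preimage_add]
      exact hKc.measure_lt_top.ne
    refine h1.trans (le_of_eq ?_)
    rw [measureReal_def, measure_preimage_add]
    rfl
  set q : V → ℝ := fun p => μ.real (Mac K p) / μ.real K with hq
  have hq0 : ∀ p ∈ F, 0 < q p := fun p hp => div_pos (hs0 p hp) hKr
  have hq1 : ∀ p ∈ F, q p ≤ 1 := fun p hp => (div_le_one hKr).2 (hsK p hp)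
  have hqinv : ∀ p, μ.real K / μ.real (Mac K p) = 1 / q p := by
    intro p
    rw [hq, one_div_div]
  set F₁ := F.filter fun p => q p ≤ (s / d) ^ d with hF₁
  set F₂ := F.filter fun p => ¬ q p ≤ (s / d) ^ d with hF₂
  have hF₁F : F₁ ⊆ F := Finset.filter_subset _ _
  have hF₂F : F₂ ⊆ F := Finset.filter_subset _ _
  -- the small regions
  have hcard : F₁.card ≤ k := by
    have h1 : (F₁.card : ℝ) * (1 / (s / d) ^ d) ≤ G := by
      calc (F₁.card : ℝ) * (1 / (s / d) ^ d) = ∑ p ∈ F₁, 1 / (s / d) ^ d := by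
            rw [Finset.sum_const, nsmul_eq_mul]
        _ ≤ ∑ p ∈ F₁, μ.real K / μ.real (Mac K p) := by
            refine Finset.sum_le_sum fun p hp => ?_
            rw [hqinv]
            exact one_div_le_one_div_of_le (hq0 p (hF₁F hp)) (Finset.mem_filter.1 hp).2
        _ ≤ ∑ p ∈ F, μ.real K / μ.real (Mac K p) :=
            Finset.sum_le_sum_of_subset_of_nonneg hF₁F fun p _ _ => by positivity
        _ ≤ G := hG
    have h2 : (F₁.card : ℝ) ≤ G * (s / d) ^ d := by
      rw [mul_one_div, div_le_iff₀ (by positivity)] at h1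
      exact h1
    have h3 : (F₁.card : ℝ) < k + 1 := lt_of_le_of_lt h2 hk
    have h4 : F₁.card < k + 1 := by exact_mod_cast h3
    omega
  obtain ⟨Y₁, hY₁, hcov₁⟩ := Pool.Agent.K3h52.HR.few hK F₁
    (fun p hp => interior_subset (hF p (hF₁F hp))) (by linarith : 0 < 1 - κ) k n hcard hn
  -- the large regions
  obtain ⟨Y₂, hY₂, hcov₂⟩ := few_gen μ hK hL hLc hLi hLK hd hκ0 hκ1 F₂
    (fun p hp => hF p (hF₂F hp)) m ν hν hm (fun p => (1 / q p) / G') (by
      intro p hp
      have hp' := hF₂F hp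
      have h1 : (s / d) ^ d < q p := not_le.1 (Finset.mem_filter.1 hp).2
      set a := (μ.real (Mac K p) / μ.real K) ^ ((d : ℝ)⁻¹) with ha
      have haq : a ^ d = q p := Real.rpow_inv_natCast_pow (hq0 p hp').le hd0
      have ha0 : 0 < a := Real.rpow_pos_of_pos (hq0 p hp') _
      have ha1 : a ≤ 1 := Real.rpow_le_one (hq0 p hp').le (hq1 p hp') (by positivity)
      have hsa : s / d ≤ a := by
        by_contra hcon
        push Not at hcon
        have := pow_le_pow_left₀ ha0.le hcon.le d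
        rw [haq] at this
        linarith
      have h2 := hexp (d * a) (by
        rw [div_le_iff₀ hdr] at hsa
        linarith) (by nlinarith)
      have h3 : (2 : ℝ) ^ ((d : ℝ) * a) ≤ (1 + a) ^ d := by
        have h4 : (2 : ℝ) ^ a ≤ 1 + a := by
          have h5 := rpow_one_add_le_one_add_mul_self (s := 1) (by norm_num) ha0.le ha1
          have e : (1 : ℝ) + 1 = 2 := by norm_num
          rw [e] at h5
          linarith
        calc (2 : ℝ) ^ ((d : ℝ) * a) = ((2 : ℝ) ^ a) ^ d := by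
              rw [mul_comm, Real.rpow_mul (by norm_num), Real.rpow_natCast]
          _ ≤ (1 + a) ^ d := pow_le_pow_left₀ (by positivity) h4 d
      have h5 : ((d : ℝ) / (d * a)) ^ d = 1 / q p := by
        rw [← haq, ← one_div_pow]
        congr 1
        field_simp
      rw [h5] at h2
      refine le_trans (Real.exp_le_exp.2 (neg_le_neg ?_)) h2
      exact mul_le_mul_of_nonneg_left h3 hν.le) (by
      have hG'0 : 0 < G' := by
        have : 0 ≤ ∑ p ∈ F, μ.real K / μ.real (Mac K p) :=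
          Finset.sum_nonneg fun p _ => by positivity
        linarith
      rw [← Finset.sum_div, div_lt_one hG'0]
      refine lt_of_le_of_lt ?_ hGG
      refine le_trans ?_ hG
      refine le_trans (le_of_eq (Finset.sum_congr rfl fun p _ => (hqinv p).symm)) ?_
      exact Finset.sum_le_sum_of_subset_of_nonneg hF₂F fun p _ _ => by positivity)
  refine ⟨Y₁ ∪ Y₂, (Finset.card_union_le _ _).trans (add_le_add hY₁ hY₂), ?_⟩
  intro p hp
  by_cases h : q p ≤ (s / d) ^ d
  · obtain ⟨t, ht, htp⟩ := hcov₁ p (Finset.mem_filter.2 ⟨hp, h⟩)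
    exact ⟨t, Finset.mem_union_left _ ht, htp⟩
  · obtain ⟨t, ht, htp⟩ := hcov₂ p (Finset.mem_filter.2 ⟨hp, h⟩)
    exact ⟨t, Finset.mem_union_right _ ht, htp⟩

/-- **Covering.** -/
theorem cov_split {A B L : Set V} (hA : Convex ℝ A) (hAc : IsCompact A)
    (hL : Convex ℝ L) (hLc : IsCompact L) (hLi : (interior L).Nonempty) (hLA : L ⊆ A)
    (hB : Convex ℝ B) (hBc : IsCompact B) (hBn : B.Nonempty)
    (hd : 1 ≤ finrank ℝ V) (VL VU : ℝ) (hVL : 0 < VL)
    (hVL' : ∀ S : Set V, SB S → VL ≤ μ.real S * μ.real (pol S))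
    (hU : ∀ S : Set V, SB S → μ.real S * μ.real (pol S) ≤ VU) {ζ κ : ℝ} (hζ : 0 < ζ)
    (hκ : 2 * ζ < κ) (hκ1 : κ < 1) (m : ℕ) (ν : ℝ) (hν : 0 < ν)
    (hm : ν * (((1 + κ) / (1 - κ)) ^ finrank ℝ V * μ.real (A - L)) ≤ m * μ.real L)
    (G' : ℝ) (hGG : 4 * (1 / ζ + 1) ^ 2 * (VU / VL) ^ 2 * (4096 / ζ) ^ finrank ℝ V < G')
    (s : ℝ) (hs : 0 < s)
    (hexp : ∀ x : ℝ, s ≤ x → x ≤ finrank ℝ V →
      Real.exp (-(ν * (2 : ℝ) ^ x)) ≤ (finrank ℝ V / x) ^ finrank ℝ V / G')
    (k n : ℕ) (hk : G' * (s / finrank ℝ V) ^ finrank ℝ V < k + 1)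
    (hn : (TP.left (((1 - κ) / (1 + (1 - κ))) ^ finrank ℝ V))^[n] k = 0) :
    ∃ T : Finset V, A + B ⊆ ⋃ t ∈ T, (fun x => t + x) '' interior (A + B) ∧
      T.card ≤ n + m := by
  obtain ⟨c, hK, hKK⟩ := origin μ hA hAc (hLi.mono (interior_mono hLA)) VU hU
  set K : Set V := {v | c + v ∈ A} with hKdef
  set L' : Set V := {v | c + v ∈ L} with hLdef
  have hζ1 : ζ < 1 := by linarith
  have hκ0 : 0 < κ := by linarith
  obtain ⟨F, hFG, hF⟩ := Pool.Agent.K3h52.LF.net hK hζ hζ1 _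
    (fun F hF => good_card μ hK hζ hζ1 VL VU hVL hVL' hU hKK F hF)
  have hinv := inv_sum μ hK hζ hζ1 VL VU hVL hVL' hU hKK F hFG
  have hvL : μ.real L' = μ.real L := by
    have e : L' = (fun v => c + v) ⁻¹' L := rfl
    rw [e, measureReal_def, measure_preimage_add]
    rfl
  have hKA : K - L' = A - L := by
    ext x
    constructor
    · rintro ⟨a, ha, b, hb, rfl⟩
      exact ⟨c + a, ha, c + b, hb, by simp⟩
    · rintro ⟨a, ha, b, hb, rfl⟩
      refine ⟨a - c, ?_, b - c, ?_, by simp⟩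
      · show c + (a - c) ∈ A
        rwa [add_sub_cancel]
      · show c + (b - c) ∈ L
        rwa [add_sub_cancel]
  have hL'c : IsCompact L' := by
    refine (hLc.image (f := fun y => y - c) (by fun_prop)).of_isClosed_subset
      (hLc.isClosed.preimage (by fun_prop)) ?_
    intro a ha
    exact ⟨c + a, ha, by simp⟩
  have hL'i : (interior L').Nonempty := by
    obtain ⟨z, hz⟩ := hLi
    have h1 : IsOpen ((fun v => c + v) ⁻¹' interior L) := isOpen_interior.preimage (by fun_prop)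
    refine ⟨z - c, interior_maximal (s := L') (t := (fun v => c + v) ⁻¹' interior L)
      (fun a ha => interior_subset (s := L) ha) h1 ?_⟩
    show c + (z - c) ∈ interior L
    rwa [add_sub_cancel]
  have hL'v : Convex ℝ L' := hL.translate_preimage_right c
  have hdr : (0 : ℝ) < finrank ℝ V := by exact_mod_cast (by omega : 0 < finrank ℝ V)
  obtain ⟨Y, hYm, hY⟩ := few_split μ (L := L') hK hL'v hL'c hL'i
    (fun v hv => hLA hv) hd hκ0 hκ1 F (good_int hK hζ hζ1 hFG) _ hinv m ν hν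
    (by rw [hKA, hvL]; exact hm) G' hGG s hs hexp k n
    (lt_of_le_of_lt (mul_le_mul_of_nonneg_right hGG.le (by positivity)) hk) hn
  obtain ⟨T, hT, hcov⟩ := lit_cov hA hAc hB hBc hBn hd c hK (by linarith : 0 < 1 - κ)
    (by linarith : 1 - κ < 1 - 2 * ζ) F Y hF hY
  exact ⟨T, hcov, hT.trans hYm⟩

end Pool.Agent.Helper66.DL
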