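import Pool.Agent.Helper66.DL.Few

set_option autoImplicit false
set_option exponentiation.threshold 2000

/-!
Constants and the final estimate.
-/

namespace Pool.Agent.Helper66.DL

open scoped RealInnerProductSpace Pointwise ENNReal
open Module MeasureTheory Real
open Pool.Agent.H845R2 (SB pol MV)
open Pool.Agent.K3h52 Pool.Agent.K3h52.HR Pool.Agent.K3h52.LF
open Pool.Agent.K3h52.TP (left exists_steps)

/-- The sum over the net. -/
theorem net_const (d : ℕ) (hd : 3 ≤ d) (hd1 : (2770 : ℝ) ≤ d) (hl2 : log (d : ℝ) ≤ 0.00287 * d)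
    (ζ : ℝ) (hζ : ζ = 1 / (40 * (d : ℝ))) :
    4 * (1 / ζ + 1) ^ 2 * ((2 * π * exp 1 / d) ^ d / (3.58 ^ d / (d.factorial : ℝ))) ^ 2 *
        (4096 / ζ) ^ d < (513100 * (d : ℝ)) ^ d := by
  have hd3 : (3 : ℝ) ≤ d := by exact_mod_cast hd
  have hd0 : (0 : ℝ) < d := by linarith
  set l := log (d : ℝ) with hl
  have hζ0 : 0 < ζ := by rw [hζ]; positivity
  have hz : 1 / ζ = 40 * d := by rw [hζ, one_div_one_div]
  have hR := ratio d (by omega)
  have hR0 : 0 ≤ (2 * π * exp 1 / d) ^ d / (3.58 ^ d / (d.factorial : ℝ)) := by positivity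
  have h1 : 4 * (1 / ζ + 1) ^ 2 * ((2 * π * exp 1 / d) ^ d /
      (3.58 ^ d / (d.factorial : ℝ))) ^ 2 * (4096 / ζ) ^ d ≤
      4 * (1 / ζ + 1) ^ 2 * (exp 1 * d * 1.7551 ^ d) ^ 2 * (4096 / ζ) ^ d := by
    gcongr
  have h2 : 4 * (1 / ζ + 1) ^ 2 * (exp 1 * d * 1.7551 ^ d) ^ 2 * (4096 / ζ) ^ d =
      (4 * (40 * d + 1) ^ 2 * (exp 1 * d) ^ 2) * (1.7551 ^ 2 * 163840 * d) ^ d := by
    have e2 : (4096 / ζ) ^ d = (163840 * d) ^ d := by
      congr 1
      rw [hζ]
      field_simp
      norm_num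
    have e4 : (1.7551 ^ 2 * 163840 * (d : ℝ)) ^ d = (1.7551 ^ d) ^ 2 * (163840 * d) ^ d := by
      rw [← pow_mul, mul_comm d 2, pow_mul, ← mul_pow]
      congr 1
      ring
    rw [e4, hz, e2]
    ring
  have h3 : 4 * (40 * (d : ℝ) + 1) ^ 2 * (exp 1 * d) ^ 2 ≤ exp (0.0163 * d) := by
    have he := Real.exp_one_lt_d9
    have h4 : 4 * (40 * (d : ℝ) + 1) ^ 2 * (exp 1 * d) ^ 2 ≤
        4 * (40.001 * d) ^ 2 * (2.7182818286 * d) ^ 2 := by
      gcongr
      linarith
    have h5 : (47300 : ℝ) ≤ exp 10.767 := by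
      have h7 := log_le 47300 (by norm_num) 323 30 (by norm_num) (by norm_num)
      have : ((323 : ℕ) : ℝ) / (30 : ℕ) ≤ 10.767 := by norm_num
      rw [← Real.log_le_iff_le_exp (by norm_num)]
      linarith
    have h6 : exp (4 * l) = (d : ℝ) ^ 4 := by
      have : (4 : ℝ) * l = ((4 : ℕ) : ℝ) * l := by norm_num
      rw [this, Real.exp_nat_mul, hl, exp_log hd0]
    calc 4 * (40 * (d : ℝ) + 1) ^ 2 * (exp 1 * d) ^ 2
        ≤ 4 * (40.001 * d) ^ 2 * (2.7182818286 * d) ^ 2 := h4
      _ = (4 * 40.001 ^ 2 * 2.7182818286 ^ 2) * (d : ℝ) ^ 4 := by ring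
      _ ≤ 47300 * (d : ℝ) ^ 4 := by
          refine mul_le_mul_of_nonneg_right ?_ (by positivity)
          norm_num
      _ ≤ exp 10.767 * exp (4 * l) := by
          rw [h6]
          exact mul_le_mul_of_nonneg_right h5 (by positivity)
      _ = exp (10.767 + 4 * l) := by rw [exp_add]
      _ ≤ exp (0.0163 * d) := by
          refine Real.exp_le_exp.mpr ?_
          linarith
  have h4 : exp (0.0163 * d) * (1.7551 ^ 2 * 163840 * (d : ℝ)) ^ d < (513100 * (d : ℝ)) ^ d := by
    have e : exp (0.0163 * d) = exp 0.0163 ^ d := by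
      rw [← Real.exp_nat_mul]
      congr 1
      ring
    rw [e, ← mul_pow]
    refine pow_lt_pow_left₀ ?_ (by positivity) (by omega)
    have h5 : exp 0.0163 ≤ 1 / (1 - 0.0163) :=
      Real.exp_bound_div_one_sub_of_interval (by norm_num) (by norm_num)
    calc exp 0.0163 * (1.7551 ^ 2 * 163840 * (d : ℝ))
        ≤ 1 / (1 - 0.0163) * (1.7551 ^ 2 * 163840 * (d : ℝ)) :=
          mul_le_mul_of_nonneg_right h5 (by positivity)
      _ = (1 / (1 - 0.0163) * (1.7551 ^ 2 * 163840)) * d := by ring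
      _ < 513100 * d := by
          refine mul_lt_mul_of_pos_right ?_ hd0
          norm_num
  calc _ ≤ _ := h1
    _ = _ := h2
    _ ≤ exp (0.0163 * d) * (1.7551 ^ 2 * 163840 * (d : ℝ)) ^ d :=
        mul_le_mul_of_nonneg_right h3 (by positivity)
    _ < _ := h4

/-- The final estimate. -/
theorem final2 (d : ℕ) (hd : 3 ≤ d) (h10 : 10 ≤ log d + log (log d)) (R : ℝ) (hR : 1 ≤ R) :
    ∃ ζ κ ν : ℝ, 0 < ζ ∧ 2 * ζ < κ ∧ κ < 1 ∧ 0 < ν ∧
      ν * (((1 + κ) / (1 - κ)) ^ d * (2 ^ d * R)) ≤ (d * 2 ^ d : ℕ) ∧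
      ∃ G' s : ℝ, 0 < s ∧
      4 * (1 / ζ + 1) ^ 2 * ((2 * π * exp 1 / d) ^ d / (3.58 ^ d / (d.factorial : ℝ))) ^ 2 *
        (4096 / ζ) ^ d < G' ∧
      (∀ x : ℝ, s ≤ x → x ≤ d → exp (-(ν * (2 : ℝ) ^ x)) ≤ (d / x) ^ d / G') ∧
      ∃ k n : ℕ, G' * (s / d) ^ d < k + 1 ∧
      (left (((1 - κ) / (1 + (1 - κ))) ^ d))^[n] k = 0 ∧
      ((n + d * 2 ^ d : ℕ) : ℝ) ≤ 2 ^ d * d * (15.5 + 1.03 * log (1 + log R)) := by
  have hd3 : (3 : ℝ) ≤ d := by exact_mod_cast hd
  have hd0 : (0 : ℝ) < d := by linarith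
  set l := log (d : ℝ) with hl
  have hl0' : 0 < l := Real.log_pos (by linarith)
  have hl1 : 7.928 ≤ l := by
    by_contra hcon
    push Not at hcon
    have h1 : log l ≤ log 7.928 := Real.log_le_log hl0' hcon.le
    have h2 := log_le 7.928 (by norm_num) 29 14 (by norm_num) (by norm_num)
    have : ((29 : ℕ) : ℝ) / (14 : ℕ) ≤ 2.072 := by norm_num
    linarith
  have h2770 : log 2770 ≤ 7.9275 := by
    have h1 := log_le 2770 (by norm_num) 436 55 (by norm_num) (by norm_num)
    have : ((436 : ℕ) : ℝ) / (55 : ℕ) ≤ 7.9275 := by norm_num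
    linarith
  have hd1 : (2770 : ℝ) ≤ d := by
    have h2 : log 2770 ≤ l := by linarith
    exact (Real.log_le_log_iff (by norm_num) hd0).1 h2
  have hl2 : l ≤ 0.00287 * d := by
    have h1 := Real.log_le_sub_one_of_pos (show 0 < (d : ℝ) / 2770 by positivity)
    rw [Real.log_div hd0.ne' (by norm_num)] at h1
    linarith
  set ℓ := log R with hℓ
  have hℓ0 : 0 ≤ ℓ := Real.log_nonneg hR
  have hRexp : R = exp ℓ := (Real.exp_log (by linarith)).symm
  have hR0 : 0 < R := by linarith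
  set L₁ := log (1 + ℓ) with hL₁
  have hL₁0 : 0 ≤ L₁ := Real.log_nonneg (by linarith)
  set κ := 0.0505 / (d : ℝ) with hκ
  have hκ0 : 0 < κ := by positivity
  have hκ1 : κ ≤ 0.00002 := by
    rw [hκ, div_le_iff₀ hd0]
    linarith
  set ν := 0.8989 * (d : ℝ) / R with hν
  have hν0 : 0 < ν := by positivity
  set s := 5 + 2 * ℓ with hs
  have hs0 : 0 < s := by positivity
  have hlogC : log 513100 ≤ 13.15 := by
    have h1 := log_le 513100 (by norm_num) 263 20 (by norm_num) (by norm_num)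
    have : ((263 : ℕ) : ℝ) / (20 : ℕ) = 13.15 := by norm_num
    linarith
  have hlog5 : log 5 ≤ 1.61 := by
    have h1 := log_le 5 (by norm_num) 161 100 (by norm_num) (by norm_num)
    have : ((161 : ℕ) : ℝ) / (100 : ℕ) = 1.61 := by norm_num
    linarith
  have hlog2 : 0.6931 ≤ log 2 := by
    have := Real.log_two_gt_d9
    linarith
  have hlog2' : log 2 ≤ 0.6932 := by
    have := Real.log_two_lt_d9
    linarith
  set p := ((1 - κ) / (1 + (1 - κ))) ^ d with hp
  have hp0 : 0 < p := by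
    have : 0 < 1 - κ := by linarith
    positivity
  have hp2 : p ≤ (1 / 2) ^ d := by
    refine pow_le_pow_left₀ (div_nonneg (by linarith) (by linarith)) ?_ d
    rw [div_le_iff₀ (by linarith)]
    linarith
  have hp1 : p ≤ 1 := hp2.trans (pow_le_one₀ (by norm_num) (by norm_num))
  set G' := (513100 * (d : ℝ)) ^ d with hG'
  have hG'0 : 0 < G' := by positivity
  set Λ := (d : ℝ) * (14.067 + L₁) with hΛ
  have hΛ0 : 0 ≤ Λ := by positivity
  have hN : G' * (s / d) ^ d = (513100 * s) ^ d := by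
    rw [hG', ← mul_pow]
    congr 1
    field_simp
  have hlogs : log s ≤ 1.61 + L₁ := by
    have h1 : s ≤ 5 * (1 + ℓ) := by rw [hs]; linarith
    have h2 := Real.log_le_log hs0 h1
    rw [Real.log_mul (by norm_num) (by positivity)] at h2
    linarith
  have hpk : p * (⌊G' * (s / d) ^ d⌋₊ : ℝ) ≤ exp Λ := by
    calc p * (⌊G' * (s / d) ^ d⌋₊ : ℝ) ≤ (1 / 2) ^ d * (513100 * s) ^ d := by
          refine mul_le_mul hp2 ?_ (by positivity) (by positivity)
          rw [← hN]
          exact Nat.floor_le (by positivity)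
      _ = (1 / 2 * (513100 * s)) ^ d := (mul_pow _ _ _).symm
      _ ≤ exp (14.067 + L₁) ^ d := by
          refine pow_le_pow_left₀ (by positivity) ?_ d
          rw [← Real.log_le_iff_le_exp (by positivity), Real.log_mul (by norm_num) (by positivity),
            Real.log_mul (by norm_num) (by positivity), one_div, Real.log_inv]
          linarith
      _ = exp Λ := by
          rw [← Real.exp_nat_mul]
  obtain ⟨n, hn, hnle⟩ := exists_steps hp0 hp1 ⌊G' * (s / d) ^ d⌋₊ Λ hΛ0 hpk
  refine ⟨1 / (40 * (d : ℝ)), κ, ν, by positivity, ?_, by linarith, hν0, ?_, G', s, hs0,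
    net_const d hd hd1 hl2 _ rfl, ?_, ⌊G' * (s / d) ^ d⌋₊, n, Nat.lt_floor_add_one _, hn, ?_⟩
  · rw [hκ]
    rw [mul_one_div, div_lt_div_iff₀ (by positivity) hd0]
    linarith
  · have h2 : ((1 + κ) / (1 - κ)) ^ d ≤ 1 / (1 - 0.1011) := by
      have h3 : (1 + κ) / (1 - κ) ≤ exp (2 * κ / (1 - κ)) := by
        have h4 := Real.add_one_le_exp (2 * κ / (1 - κ))
        have h5 : 1 - κ ≠ 0 := by linarith
        have e : 2 * κ / (1 - κ) + 1 = (1 + κ) / (1 - κ) := by field_simp; ring
        rwa [e] at h4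
      have h6 : ((1 + κ) / (1 - κ)) ^ d ≤ exp 0.1011 := by
        calc ((1 + κ) / (1 - κ)) ^ d ≤ exp (2 * κ / (1 - κ)) ^ d :=
              pow_le_pow_left₀ (div_nonneg (by linarith) (by linarith)) h3 d
          _ = exp (d * (2 * κ / (1 - κ))) := by rw [← Real.exp_nat_mul]
          _ ≤ exp 0.1011 := by
              refine Real.exp_le_exp.mpr ?_
              have e : (d : ℝ) * (2 * κ / (1 - κ)) = 0.101 / (1 - κ) := by
                have h5 : 1 - κ ≠ 0 := by linarith
                have h7 : (d : ℝ) * (2 * κ) = 0.101 := by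
                  rw [hκ]
                  field_simp
                  norm_num
                rw [← h7]
                ring
              rw [e, div_le_iff₀ (by linarith)]
              linarith
      exact h6.trans (Real.exp_bound_div_one_sub_of_interval (by norm_num) (by norm_num))
    push_cast
    calc ν * (((1 + κ) / (1 - κ)) ^ d * (2 ^ d * R))
        ≤ ν * (1 / (1 - 0.1011) * (2 ^ d * R)) := by gcongr
      _ = d * 2 ^ d := by
          rw [hν]
          field_simp
          norm_num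
  · intro x hx hxd
    have hx0 : 0 < x := by linarith
    have e1 : (d / x) ^ d / G' = exp (-(d * log (513100 * x))) := by
      rw [hG', ← div_pow, ← mul_neg, Real.exp_nat_mul, Real.exp_neg,
        Real.exp_log (by positivity)]
      congr 1
      field_simp
    rw [e1, Real.exp_le_exp, neg_le_neg_iff]
    obtain ⟨t, ht, rfl⟩ : ∃ t : ℝ, 0 ≤ t ∧ x = s + t := ⟨x - s, by linarith, by ring⟩
    have h1 : log (513100 * (s + t)) ≤ 13.15 + (1.61 + (2 * ℓ + t) / 5) := by
      rw [Real.log_mul (by norm_num) (by positivity)]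
      have h2 := Real.log_le_sub_one_of_pos (show 0 < (s + t) / 5 by positivity)
      rw [Real.log_div (by positivity) (by norm_num)] at h2
      have h3 : (s + t) / 5 - 1 = (2 * ℓ + t) / 5 := by rw [hs]; ring
      linarith
    have h2 : (2 : ℝ) ^ (s + t) = 32 * exp (log 2 * (2 * ℓ + t)) := by
      rw [Real.rpow_def_of_pos (by norm_num), hs]
      have : log 2 * (5 + 2 * ℓ + t) = (5 : ℕ) * log 2 + log 2 * (2 * ℓ + t) := by
        push_cast; ring
      rw [this, exp_add, Real.exp_nat_mul, Real.exp_log (by norm_num)]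
      norm_num
    have h3 : exp (log 2 * (2 * ℓ + t)) / R = exp ((2 * log 2 - 1) * ℓ + log 2 * t) := by
      rw [hRexp, ← Real.exp_sub]
      congr 1
      ring
    have h4 : 1 + 0.386 * ℓ + 0.693 * t ≤ exp ((2 * log 2 - 1) * ℓ + log 2 * t) := by
      have h5 := Real.add_one_le_exp ((2 * log 2 - 1) * ℓ + log 2 * t)
      have h7 := mul_le_mul_of_nonneg_right (show (0.386 : ℝ) ≤ 2 * log 2 - 1 by linarith) hℓ0
      have h8 := mul_le_mul_of_nonneg_right (show (0.693 : ℝ) ≤ log 2 by linarith) ht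
      linarith
    have h6 : ν * (2 : ℝ) ^ (s + t) =
        d * (0.8989 * 32 * (exp (log 2 * (2 * ℓ + t)) / R)) := by
      rw [h2, hν]
      ring
    rw [h6, h3]
    refine mul_le_mul_of_nonneg_left ?_ hd0.le
    linarith
  · -- the final inequality
    push_cast
    have hpinv : 1 / p ≤ 2 ^ d * (1 / (1 - 0.0253)) := by
      have h1 : 1 / p = 2 ^ d * (1 + κ / (2 * (1 - κ))) ^ d := by
        rw [hp, ← mul_pow, ← one_div_pow]
        congr 1
        have h5 : 1 - κ ≠ 0 := by linarith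
        field_simp
        ring
      have h2 : (1 + κ / (2 * (1 - κ))) ^ d ≤ exp 0.0253 := by
        have h10 : 0 ≤ κ / (2 * (1 - κ)) := div_nonneg hκ0.le (by linarith)
        calc (1 + κ / (2 * (1 - κ))) ^ d ≤ exp (κ / (2 * (1 - κ))) ^ d := by
              refine pow_le_pow_left₀ (by positivity) ?_ d
              have := Real.add_one_le_exp (κ / (2 * (1 - κ)))
              linarith
          _ = exp (d * (κ / (2 * (1 - κ)))) := by rw [← Real.exp_nat_mul]
          _ ≤ exp 0.0253 := by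
              refine Real.exp_le_exp.mpr ?_
              have e2 : (d : ℝ) * (κ / (2 * (1 - κ))) = 0.0505 / (2 * (1 - κ)) := by
                rw [hκ]
                field_simp
              rw [e2, div_le_iff₀ (by linarith)]
              linarith
      have h3 : exp 0.0253 ≤ 1 / (1 - 0.0253) :=
        Real.exp_bound_div_one_sub_of_interval (by norm_num) (by norm_num)
      rw [h1]
      exact mul_le_mul_of_nonneg_left (h2.trans h3) (by positivity)
    have h2d0 : (0 : ℝ) < 2 ^ d := by positivity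
    have h2d1 : (1 : ℝ) ≤ 2 ^ d := one_le_pow₀ (by norm_num)
    have h9 : (1 + Λ) / p ≤ 2 ^ d * (1 / (1 - 0.0253)) * (1 + Λ) := by
      have : (1 + Λ) / p = 1 / p * (1 + Λ) := by ring
      rw [this]
      exact mul_le_mul_of_nonneg_right hpinv (by linarith)
    have h11 : (1 : ℝ) / (1 - 0.0253) ≤ 1.02596 := by norm_num
    have h12 : 2 ^ d * (1 / (1 - 0.0253)) * (1 + Λ) ≤ 2 ^ d * (1.02596 * (1 + Λ)) := by
      rw [mul_assoc]
      exact mul_le_mul_of_nonneg_left (mul_le_mul_of_nonneg_right h11 (by linarith)) h2d0.le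
    have h13 : (n : ℝ) + d * 2 ^ d ≤ 2 ^ d * (1 + 1.02596 * (1 + Λ) + d) := by
      linarith
    refine h13.trans ?_
    rw [mul_assoc]
    refine mul_le_mul_of_nonneg_left ?_ h2d0.le
    have h14 : 0 ≤ (d : ℝ) * L₁ := mul_nonneg hd0.le hL₁0
    have h15 : 1 + 1.02596 * (1 + Λ) + (d : ℝ) =
        2.02596 + (1.02596 * 14.067 + 1) * d + 1.02596 * (d * L₁) := by
      rw [hΛ]
      ring
    have h16 : (d : ℝ) * (15.5 + 1.03 * L₁) = 15.5 * d + 1.03 * (d * L₁) := by ring
    rw [h15, h16]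
    linarith

/-- **Main theorem.** -/
theorem main (d : ℕ) (hd : 3 ≤ d) (A B L : Set (EuclideanSpace ℝ (Fin d))) (hA : Convex ℝ A)
    (hAc : IsCompact A) (hB : Convex ℝ B) (hBc : IsCompact B) (hBn : B.Nonempty)
    (hL : Convex ℝ L) (hLc : IsCompact L) (hLi : (interior L).Nonempty) (hLA : L ⊆ A) :
    1 ≤ volume.real (A - L) / (2 ^ d * volume.real L) ∧
    ∃ T : Finset (EuclideanSpace ℝ (Fin d)),
      A + B ⊆ ⋃ t ∈ T, (fun x => t + x) '' interior (A + B) ∧
      (T.card : ℝ) ≤ 2 ^ d * d *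
        (15.5 + 1.03 * log (1 + log (volume.real (A - L) / (2 ^ d * volume.real L)))) := by
  have hfr : finrank ℝ (EuclideanSpace ℝ (Fin d)) = d := by simp
  have hAi : (interior A).Nonempty := hLi.mono (interior_mono hLA)
  have hL0 : 0 < volume.real L := TP.real_pos' volume hLc hLi
  have hAL : IsCompact (A - L) := sub_comp hAc hLc
  have hD2 : 2 ^ d * volume.real L ≤ volume.real (A - L) := by
    have hneg : volume.real (-L) = volume.real L := by
      rw [measureReal_def, Measure.measure_neg]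
      rfl
    have key := Pool.Agent.K3h76.UC.bm volume d hfr L (-L) (A - L) hLc.isClosed.measurableSet
      hLc.neg.isClosed.measurableSet hAL.isClosed.measurableSet hLc.measure_lt_top.ne
      hLc.neg.measure_lt_top.ne hAL.measure_lt_top.ne 1 1 one_pos one_pos
      (by rw [hneg, one_pow, one_mul]) (by
        intro z hz w hw
        exact ⟨z, hLA hz, -w, hw, by simp⟩)
    rw [hneg] at key
    have : (1 + 1 : ℝ) = 2 := by norm_num
    rwa [this] at key
  set R := volume.real (A - L) / (2 ^ d * volume.real L) with hR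
  have hR1 : 1 ≤ R := by
    rw [hR, one_le_div (by positivity)]
    exact hD2
  have hRL : 2 ^ d * R * volume.real L = volume.real (A - L) := by
    rw [hR]
    field_simp
  have hℓ0 : 0 ≤ log R := Real.log_nonneg hR1
  have hL₁0 : 0 ≤ log (1 + log R) := Real.log_nonneg (by linarith)
  refine ⟨hR1, ?_⟩
  rcases lt_or_ge (log (d : ℝ) + log (log d)) 10 with h10 | h10
  · obtain ⟨T, hT, hcard⟩ := HR.main d hd A B hA hAc hAi hB hBc hBn
    refine ⟨T, hT, ?_⟩
    have hd0 : (0 : ℝ) < d := by exact_mod_cast (by omega : 0 < d)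
    refine hcard.trans ?_
    rw [mul_assoc]
    refine mul_le_mul_of_nonneg_left ?_ (by positivity)
    nlinarith [mul_nonneg hd0.le hL₁0]
  · obtain ⟨ζ, κ, ν, hζ, hκ, hκ1, hν, hm, G', s, hs, hG, hexp, k, n, hk, hn, hle⟩ :=
      final2 d hd h10 R hR1
    have hVL : (0 : ℝ) < 3.58 ^ d / (d.factorial : ℝ) := by
      have : (0 : ℝ) < d.factorial := by exact_mod_cast Nat.factorial_pos d
      positivity
    obtain ⟨T, hT, hcard⟩ := cov_split volume hA hAc hL hLc hLi hLA hB hBc hBn
      (by rw [hfr]; omega) (3.58 ^ d / (d.factorial : ℝ)) ((2 * π * exp 1 / d) ^ d) hVL (vp_lower d)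
      (fun S hS => Pool.Agent.H845R2.santalo_bound (by omega) hS) hζ hκ hκ1 (d * 2 ^ d) ν hν
      (by
        rw [hfr, ← hRL]
        have := mul_le_mul_of_nonneg_right hm hL0.le
        calc ν * (((1 + κ) / (1 - κ)) ^ d * (2 ^ d * R * volume.real L))
            = ν * (((1 + κ) / (1 - κ)) ^ d * (2 ^ d * R)) * volume.real L := by ring
          _ ≤ _ := this) G' (by rw [hfr]; exact hG) s hs (by rw [hfr]; exact hexp) k n
      (by rw [hfr]; exact hk) (by rw [hfr]; exact hn)
    exact ⟨T, hT, le_trans (by exact_mod_cast hcard) hle⟩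

end Pool.Agent.Helper66.DL
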